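import Pool.Agent.H68.Qp5

namespace Pool.Agent.Results.MP_af48a1_al.Strong

open Pool.Agent.H68.Qp SemidirectProduct

theorem result (B W : Type) [Group W] (M : CoxeterMatrix B) (cs : CoxeterSystem M W)
    (x : Wp cs) (hx : x ^ 2 = 1) (h1 : QP1 cs (cls cs x)) :
    ∀ r : W, cs.IsReflection r → ∀ w ∈ cls cs x,
      lenP cs (inl r * w * inl r) < lenP cs w → BLtP cs (inl r * w * inl r) w :=
  fun _ hr _ hw hl => strong hx h1 hr hw hl

end Pool.Agent.Results.MP_af48a1_al.Strong
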